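import Pool.Agent.X31.S5
import Pool.Agent.X31.M3

/-!
# Chowla's conjecture for the Liouville function: all systems of linear forms with constant terms near
# the values of bilinear functions at pairs of integers with missing digits

`C₁`, `C₂` are sets of integers with `mᵢ` digits in base `bᵢ` whose digit at `bᵢ ^ j` is in `𝒟ᵢ j`, where the sets
`𝒟ᵢ j` of allowed digits are arbitrary with at least TWO elements (for instance: the integers with the decimal digits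
`0` and `1` only; the product of the two sets can be as thin as `N ^ ε`), `θ` is a real number and `g`, `h` are
ARBITRARY real functions. The values considered are `θ x y + g(x) + h(y)`; for `θ = 1`, `g = h = 0` these are the
products of two integers with missing digits.
For almost all vectors of elements of ARBITRARY dense subsets of `k` such sets, ALL vectors of integers `s_i` within
`log ^ D N` of the values and ALL slopes `1 ≤ a_i ≤ log ^ T N` satisfy Chowla's conjecture for the linear forms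
`a_i n + s_i`, with a saving of an arbitrary power of the logarithm and with arbitrary bounded weights (for instance
the weight `λ(n) λ(n + 1) ... λ(n + j)`).

The minimal real additive energy of these values is from `Pool.Agent.X31.M1` - `M3` (in this run); the
correlations for families with a sparse large spectrum are from `Pool.Agent.X107.JF` (helper107), the bound for the
exponential sums with `λ` is from the starting files (`Pool.Agent.H373R2.T7.sup_liou`).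
-/

set_option autoImplicit false

namespace Pool.Agent.Results.MP_4a7640_nt.BilinearForms

open Finset

/-- the integers `0 ≤ n < b ^ m` whose digit at `b ^ j` in base `b` is in `𝒟 j`, for all `j < m` -/
def Digits (b : ℕ) (𝒟 : ℕ → Finset ℕ) (m : ℕ) : Finset ℕ :=
  (range (b ^ m)).filter (fun n => ∀ j < m, n / b ^ j % b ∈ 𝒟 j)

/-- the bilinear function `θ x y + g(x) + h(y)` -/
def bil (θ : ℝ) (g h : ℕ → ℝ) (n : ℕ × ℕ) : ℝ := θ * ((n.1 : ℝ) * n.2) + g n.1 + h n.2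

/-- `M` is a set of pairs in `Digits b₁ 𝒟₁ m₁ × Digits b₂ 𝒟₂ m₂` with at least `1 / log ^ D N` of all these pairs, where
all sets `𝒟ᵢ j` of allowed digits have at least two elements and `m₁ ≤ l m₂`, `m₂ ≤ l m₁`; the number `θ` is at most
`log ^ D N` and at least `N / (b₁ ^ m₁ b₂ ^ m₂ log ^ D N)` in absolute value; `g` and `h` are ARBITRARY functions with
`|bil θ g h| ≤ N` on `M`. -/
def Fam (b₁ b₂ l D N m₁ m₂ : ℕ) (𝒟₁ 𝒟₂ : ℕ → Finset ℕ) (θ : ℝ) (g h : ℕ → ℝ) (M : Finset (ℕ × ℕ)) : Prop :=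
  (∀ j, 𝒟₁ j ⊆ range b₁ ∧ 2 ≤ (𝒟₁ j).card) ∧ (∀ j, 𝒟₂ j ⊆ range b₂ ∧ 2 ≤ (𝒟₂ j).card) ∧
  m₁ ≤ l * m₂ ∧ m₂ ≤ l * m₁ ∧
  |θ| ≤ Real.log N ^ D ∧ (N : ℝ) / Real.log N ^ D ≤ |θ| * ((b₁ : ℝ) ^ m₁ * (b₂ : ℝ) ^ m₂) ∧
  M ⊆ Digits b₁ 𝒟₁ m₁ ×ˢ Digits b₂ 𝒟₂ m₂ ∧
  ((Digits b₁ 𝒟₁ m₁).card * (Digits b₂ 𝒟₂ m₂).card : ℝ) / Real.log N ^ D ≤ M.card ∧ ∀ n ∈ M, |bil θ g h n| ≤ N

/-- The Liouville function on the integers, `0` at the integers `m ≤ 0`. -/
noncomputable def lam (m : ℤ) : ℝ := if 1 ≤ m then (-1) ^ ArithmeticFunction.cardFactors m.toNat else 0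

lemma lam_abs (m : ℤ) : |lam m| ≤ 1 := by
  unfold lam
  split_ifs
  · rw [abs_pow, abs_neg, abs_one, one_pow]
  · simp

lemma lam_eq (m : ℤ) : Pool.Agent.H373R2.T7.exI Pool.Agent.H373R2.T7.liR m = ((lam m : ℝ) : ℂ) := by
  unfold Pool.Agent.H373R2.T7.exI lam Pool.Agent.H373R2.T7.liR
  split_ifs with h3
  · push_cast
    rfl
  · simp

lemma dat_of {b₁ b₂ l D N m₁ m₂ : ℕ} {𝒟₁ 𝒟₂ : ℕ → Finset ℕ} {θ : ℝ} {g h : ℕ → ℝ} {M : Finset (ℕ × ℕ)}
    (H : Fam b₁ b₂ l D N m₁ m₂ 𝒟₁ 𝒟₂ θ g h M) : Pool.Agent.X31.CT.Dat2 b₁ b₂ l D N m₁ m₂ 𝒟₁ 𝒟₂ θ g h M :=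
  ⟨H.1, H.2.1, H.2.2.1, H.2.2.2.1, H.2.2.2.2.1, H.2.2.2.2.2.1, H.2.2.2.2.2.2.1, H.2.2.2.2.2.2.2.1,
    H.2.2.2.2.2.2.2.2⟩

/-- Let `b₁ i, b₂ i ≥ 2` and `l i ≥ 1` be integers (`i < k`). Let `k ≥ 1` and `B`, `D`, `T`, `U` be natural numbers. For all sufficiently large `N`, all numbers `m₁ i`, `m₂ i` of digits, ALL sets of allowed
digits, all `θ i`, ALL functions `g i`, `h i` and all sets `M i` of pairs with
`Fam (b₁ i) (b₂ i) (l i) D N (m₁ i) (m₂ i) (𝒟₁ i) (𝒟₂ i) (θ i) (g i) (h i) (M i)`,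
and for all weights `w j`, `j < J ≤ log ^ T N`, with `|w j| ≤ 1`: for all but at most `(∏ #(M i)) / log ^ U N` of the vectors
`n` with `n i ∈ M i`, ALL vectors `s` of integers with `|s i - bil (θ i) (g i) (h i) (n i)| ≤ log ^ D N`
and ALL slopes `1 ≤ a i ≤ log ^ T N` satisfy `|∑ t ≤ x, w j t * ∏ i, λ (a i * t + s i)| ≤ N / log ^ U N` for all `j` and all `x`
with `a i * x ≤ B N` for all `i`. -/
theorem result {k : ℕ} (hk : 1 ≤ k) (b₁ b₂ l : Fin k → ℕ) (hb : ∀ i, 2 ≤ b₁ i ∧ 2 ≤ b₂ i ∧ 1 ≤ l i) (B D T U : ℕ) :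
    ∃ N₀ : ℕ, ∀ N : ℕ, N₀ ≤ N → ∀ (m₁ m₂ : Fin k → ℕ) (𝒟₁ 𝒟₂ : Fin k → ℕ → Finset ℕ) (θ : Fin k → ℝ) (g h : Fin k → ℕ → ℝ)
        (M : Fin k → Finset (ℕ × ℕ)),
        (∀ i, Fam (b₁ i) (b₂ i) (l i) D N (m₁ i) (m₂ i) (𝒟₁ i) (𝒟₂ i) (θ i) (g i) (h i) (M i)) →
      ∀ J : ℕ, (J : ℝ) ≤ Real.log N ^ T → ∀ w : Fin J → ℕ → ℝ, (∀ j t, |w j t| ≤ 1) →
      ∃ E : Finset (Fin k → (ℕ × ℕ)), (E.card : ℝ) ≤ (∏ i, ((M i).card : ℝ)) / Real.log N ^ U ∧
        ∀ n : Fin k → (ℕ × ℕ), (∀ i, n i ∈ M i) → n ∉ E →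
        ∀ s : Fin k → ℤ, (∀ i, |(s i : ℝ) - bil (θ i) (g i) (h i) (n i)| ≤ Real.log N ^ D) →
        ∀ a : Fin k → ℕ, (∀ i, 1 ≤ a i ∧ (a i : ℝ) ≤ Real.log N ^ T) → ∀ j, ∀ x : ℕ, (∀ i, a i * x ≤ B * N) →
          |∑ t ∈ Icc 1 x, w j t * ∏ i, lam (a i * t + s i)| ≤ N / Real.log N ^ U := by
  classical
  obtain ⟨i₀⟩ : Nonempty (Fin k) := ⟨⟨0, hk⟩⟩
  obtain ⟨N₀, h0⟩ := Pool.Agent.X31.Sch.corr_tuple (ι := fun _ => ℕ × ℕ) (Q := fun i => Pool.Agent.X31.PBil (b₁ i) (b₂ i) (l i))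
    (fun i => Pool.Agent.X31.Sch_bil (hb i).1 (hb i).2.1 (l i) (hb i).2.2)
    Pool.Agent.H373R2.T7.liR (fun n => by
    unfold Pool.Agent.H373R2.T7.liR
    rw [norm_pow, norm_neg, norm_one, one_pow]) Pool.Agent.H373R2.T7.sup_liou i₀ (0, 0) B D (T * k + T) U
  refine ⟨N₀ + 3, fun N hN m₁ m₂ 𝒟₁ 𝒟₂ θ g h M hfam J hJ w hw => ?_⟩
  have hlog1 : 1 ≤ Real.log N := by
    rw [Real.le_log_iff_exp_le (by exact_mod_cast (by omega : 0 < N))]
    have : (3 : ℝ) ≤ N := by exact_mod_cast (by omega : 3 ≤ N)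
    linarith [Real.exp_one_lt_d9]
  obtain ⟨Q, hQ⟩ : ∃ Q : ℕ, Q = ⌊Real.log N ^ T⌋₊ := ⟨_, rfl⟩
  have hQ1 : (Q : ℝ) ≤ Real.log N ^ T := by rw [hQ]; exact Nat.floor_le (by positivity)
  obtain ⟨S, hS⟩ : ∃ S : Finset (Fin k → ℕ), S = Fintype.piFinset (fun _ => Icc 1 Q) := ⟨_, rfl⟩
  have hSc : S.card = Q ^ k := by
    rw [hS, Fintype.card_piFinset, prod_const, card_univ, Fintype.card_fin, Nat.card_Icc, Nat.add_sub_cancel]
  have hSm : ∀ q : {a // a ∈ S}, ∀ i, 1 ≤ q.1 i := by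
    intro q i
    have h1 := q.2
    have h2 : q.1 ∈ Fintype.piFinset (fun _ : Fin k => Icc 1 Q) := hS ▸ h1
    exact (mem_Icc.1 (Fintype.mem_piFinset.1 h2 i)).1
  obtain ⟨e⟩ : Nonempty (Fin (S.card * J) ≃ {a // a ∈ S} × Fin J) :=
    ⟨(Fintype.equivFinOfCardEq (by rw [Fintype.card_prod, Fintype.card_coe, Fintype.card_fin])).symm⟩
  obtain ⟨E, hE1, hE2⟩ := h0 N (by omega) M (fun i n => bil (θ i) (g i) (h i) n) (fun i => ⟨m₁ i, m₂ i, 𝒟₁ i, 𝒟₂ i, θ i, g i, h i, dat_of (hfam i), fun _ => rfl⟩) (S.card * J) (by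
      rw [hSc, pow_add, pow_mul]
      push_cast
      exact mul_le_mul (pow_le_pow_left₀ (Nat.cast_nonneg _) hQ1 _) hJ (Nat.cast_nonneg _) (by positivity))
    (fun l => (e l).1.1 i₀) (fun l => hSm (e l).1 i₀)
    (fun l s t => ((w (e l).2 t * ∏ i ∈ univ.erase i₀, lam ((e l).1.1 i * t + s i) : ℝ) : ℂ)) (fun l s t => by
      rw [Complex.norm_real, Real.norm_eq_abs, abs_mul, abs_prod]
      exact mul_le_one₀ (hw _ _) (prod_nonneg fun _ _ => abs_nonneg _)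
        (Finset.prod_le_one (fun _ _ => abs_nonneg _) (fun i _ => lam_abs _)))
    (fun l s s' t hs => by
      congr 2
      apply prod_congr rfl
      intro i hi
      rw [hs i (mem_erase.1 hi).1])
  refine ⟨E, hE1, fun n hn hnE s hs a ha j x hx => ?_⟩
  have haS : a ∈ S := by
    rw [hS, Fintype.mem_piFinset]
    intro i
    rw [mem_Icc]
    refine ⟨(ha i).1, ?_⟩
    rw [hQ]
    exact Nat.le_floor (ha i).2
  have h1 := hE2 n hn hnE s (fun i => hs i) (e.symm (⟨a, haS⟩, j)) x (by simpa using hx i₀)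
  rw [← Real.norm_eq_abs, ← Complex.norm_real]
  refine le_trans (le_of_eq ?_) h1
  congr 1
  push_cast
  apply sum_congr rfl
  intro t _
  rw [lam_eq, Equiv.apply_symm_apply, mul_assoc, ← prod_erase_mul univ (fun i => ((lam (a i * t + s i) : ℝ) : ℂ)) (mem_univ i₀)]

end Pool.Agent.Results.MP_4a7640_nt.BilinearForms
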