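import Pool.Agent.X31.S5
import Pool.Agent.X31.R3

/-!
# Chowla's conjecture for the Liouville function: all systems of linear forms with constant terms near
# the values of real powers and generalised polynomials at integers with missing digits

`f(t) = ∑ u_x t ^ x` is an arbitrary finite real combination of real powers of `t` whose largest exponent `c > 0` is not
an integer (for instance `t ^ {3/2}`, or `t ^ {1/10}`), `C` is the set of the integers with `m` digits in base `b` whose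
digit at `b ^ j` is in `𝒟 j`, where the sets `𝒟 j` of allowed digits are arbitrary with at least TWO elements (for
instance: the integers with the decimal digits `0` and `1` only; such sets can be as thin as `N ^ ε`). The values
considered are `b₀ + θ f(n)`, `n ∈ C`.
For almost all vectors of elements of ARBITRARY dense subsets of `k` such sets, ALL vectors of integers `s_i` within
`log ^ D N` of the values and ALL slopes `1 ≤ a_i ≤ log ^ T N` satisfy Chowla's conjecture for the linear forms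
`a_i n + s_i`, with a saving of an arbitrary power of the logarithm and with arbitrary bounded weights (for instance
the weight `λ(n) λ(n + 1) ... λ(n + j)`).

The minimal real additive energy of these values is from `Pool.Agent.X31.R1` - `R3` (in this run); the
correlations for families with a sparse large spectrum are from `Pool.Agent.X107.JF` (helper107), the bound for the
exponential sums with `λ` is from the starting files (`Pool.Agent.H373R2.T7.sup_liou`).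
-/

set_option autoImplicit false

namespace Pool.Agent.Results.MP_4a7640_nt.PowerForms

open Finset

/-- the integers `0 ≤ n < b ^ m` whose digit at `b ^ j` in base `b` is in `𝒟 j`, for all `j < m` -/
def Digits (b : ℕ) (𝒟 : ℕ → Finset ℕ) (m : ℕ) : Finset ℕ :=
  (range (b ^ m)).filter (fun n => ∀ j < m, n / b ^ j % b ∈ 𝒟 j)

/-- the generalised polynomial with the exponents `x ∈ F` and the coefficients `u x` -/
noncomputable def f (F : Finset ℝ) (u : ℝ → ℝ) (t : ℝ) : ℝ := ∑ x ∈ F, u x * t ^ x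

/-- `M` is a subset with at least `#(Digits b 𝒟 m) / log ^ D N` elements of the set `Digits b 𝒟 m`, where all sets `𝒟 j`
of allowed digits have at least two elements; the number `θ` is at most `log ^ D N` and at least
`N / (b ^ (c m) log ^ D N)` in absolute value, and `|b₀ + θ f(n)| ≤ N` for all `n ∈ M`. -/
def Fam (b : ℕ) (F : Finset ℝ) (u : ℝ → ℝ) (c : ℝ) (D N m : ℕ) (𝒟 : ℕ → Finset ℕ) (θ b₀ : ℝ) (M : Finset ℕ) : Prop :=
  (∀ j, 𝒟 j ⊆ range b ∧ 2 ≤ (𝒟 j).card) ∧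
  |θ| ≤ Real.log N ^ D ∧ (N : ℝ) / Real.log N ^ D ≤ |θ| * ((b : ℝ) ^ m) ^ c ∧
  M ⊆ Digits b 𝒟 m ∧ ((Digits b 𝒟 m).card : ℝ) / Real.log N ^ D ≤ M.card ∧ ∀ n ∈ M, |b₀ + θ * f F u n| ≤ N

/-- The Liouville function on the integers, `0` at the integers `m ≤ 0`. -/
noncomputable def lam (m : ℤ) : ℝ := if 1 ≤ m then (-1) ^ ArithmeticFunction.cardFactors m.toNat else 0

lemma lam_abs (m : ℤ) : |lam m| ≤ 1 := by
  unfold lam
  split_ifs
  · rw [abs_pow, abs_neg, abs_one, one_pow]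
  · simp

lemma lam_eq (m : ℤ) : Pool.Agent.H373R2.T7.exI Pool.Agent.H373R2.T7.liR m = ((lam m : ℝ) : ℂ) := by
  unfold Pool.Agent.H373R2.T7.exI lam Pool.Agent.H373R2.T7.liR
  split_ifs with h3
  · push_cast
    rfl
  · simp

lemma dat_of {b : ℕ} {F : Finset ℝ} {u : ℝ → ℝ} {c : ℝ} {D N m : ℕ} {𝒟 : ℕ → Finset ℕ} {θ b₀ : ℝ} {M : Finset ℕ}
    (h : Fam b F u c D N m 𝒟 θ b₀ M) :
    Pool.Agent.X31.CT.Dat3 b c D N m 𝒟 θ b₀ (fun n => Pool.Agent.X31.gp F u n) M :=
  ⟨h.1, h.2.1, h.2.2.1, h.2.2.2.1, h.2.2.2.2.1, h.2.2.2.2.2⟩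

/-- Let `b i ≥ 2` be integers and let `F i` be finite sets of real numbers whose maxima `c i > 0` are NOT
integers, `u i (c i) ≠ 0` (`i < k`). Let `k ≥ 1` and `B`, `D`, `T`, `U` be natural numbers. For all sufficiently large `N`, all numbers `m i` of digits, ALL sets `𝒟 i j` of
allowed digits, all real `θ i`, `b₀ i` and all sets `M i` with
`Fam (b i) (F i) (u i) (c i) D N (m i) (𝒟 i) (θ i) (b₀ i) (M i)`,
and for all weights `w j`, `j < J ≤ log ^ T N`, with `|w j| ≤ 1`: for all but at most `(∏ #(M i)) / log ^ U N` of the vectors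
`n` with `n i ∈ M i`, ALL vectors `s` of integers with `|s i - (b₀ i + θ i * f (F i) (u i) (n i))| ≤ log ^ D N`
and ALL slopes `1 ≤ a i ≤ log ^ T N` satisfy `|∑ t ≤ x, w j t * ∏ i, λ (a i * t + s i)| ≤ N / log ^ U N` for all `j` and all `x`
with `a i * x ≤ B N` for all `i`. -/
theorem result {k : ℕ} (hk : 1 ≤ k) (b : Fin k → ℕ) (hb : ∀ i, 2 ≤ b i) (F : Fin k → Finset ℝ) (u : Fin k → ℝ → ℝ)
    (c : Fin k → ℝ) (hF : ∀ i, c i ∈ F i ∧ (∀ x ∈ F i, x ≤ c i) ∧ u i (c i) ≠ 0 ∧ 0 < c i ∧ ∀ j : ℕ, c i ≠ j) (B D T U : ℕ) :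
    ∃ N₀ : ℕ, ∀ N : ℕ, N₀ ≤ N → ∀ (m : Fin k → ℕ) (𝒟 : Fin k → ℕ → Finset ℕ) (θ b₀ : Fin k → ℝ) (M : Fin k → Finset ℕ),
        (∀ i, Fam (b i) (F i) (u i) (c i) D N (m i) (𝒟 i) (θ i) (b₀ i) (M i)) →
      ∀ J : ℕ, (J : ℝ) ≤ Real.log N ^ T → ∀ w : Fin J → ℕ → ℝ, (∀ j t, |w j t| ≤ 1) →
      ∃ E : Finset (Fin k → ℕ), (E.card : ℝ) ≤ (∏ i, ((M i).card : ℝ)) / Real.log N ^ U ∧
        ∀ n : Fin k → ℕ, (∀ i, n i ∈ M i) → n ∉ E →
        ∀ s : Fin k → ℤ, (∀ i, |(s i : ℝ) - (b₀ i + θ i * f (F i) (u i) (n i))| ≤ Real.log N ^ D) →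
        ∀ a : Fin k → ℕ, (∀ i, 1 ≤ a i ∧ (a i : ℝ) ≤ Real.log N ^ T) → ∀ j, ∀ x : ℕ, (∀ i, a i * x ≤ B * N) →
          |∑ t ∈ Icc 1 x, w j t * ∏ i, lam (a i * t + s i)| ≤ N / Real.log N ^ U := by
  classical
  obtain ⟨i₀⟩ : Nonempty (Fin k) := ⟨⟨0, hk⟩⟩
  obtain ⟨N₀, h0⟩ := Pool.Agent.X31.Sch.corr_tuple (ι := fun _ => ℕ) (Q := fun i => Pool.Agent.X31.PRp (b i) (F i) (u i) (c i))
    (fun i => Pool.Agent.X31.Sch_rp (hb i) (F i) (u i) (c i) (hF i).1 (hF i).2.1 (hF i).2.2.1 (hF i).2.2.2.1 (hF i).2.2.2.2)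
    Pool.Agent.H373R2.T7.liR (fun n => by
    unfold Pool.Agent.H373R2.T7.liR
    rw [norm_pow, norm_neg, norm_one, one_pow]) Pool.Agent.H373R2.T7.sup_liou i₀ 0 B D (T * k + T) U
  refine ⟨N₀ + 3, fun N hN m 𝒟 θ b₀ M hfam J hJ w hw => ?_⟩
  have hlog1 : 1 ≤ Real.log N := by
    rw [Real.le_log_iff_exp_le (by exact_mod_cast (by omega : 0 < N))]
    have : (3 : ℝ) ≤ N := by exact_mod_cast (by omega : 3 ≤ N)
    linarith [Real.exp_one_lt_d9]
  obtain ⟨Q, hQ⟩ : ∃ Q : ℕ, Q = ⌊Real.log N ^ T⌋₊ := ⟨_, rfl⟩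
  have hQ1 : (Q : ℝ) ≤ Real.log N ^ T := by rw [hQ]; exact Nat.floor_le (by positivity)
  obtain ⟨S, hS⟩ : ∃ S : Finset (Fin k → ℕ), S = Fintype.piFinset (fun _ => Icc 1 Q) := ⟨_, rfl⟩
  have hSc : S.card = Q ^ k := by
    rw [hS, Fintype.card_piFinset, prod_const, card_univ, Fintype.card_fin, Nat.card_Icc, Nat.add_sub_cancel]
  have hSm : ∀ q : {a // a ∈ S}, ∀ i, 1 ≤ q.1 i := by
    intro q i
    have h1 := q.2
    have h2 : q.1 ∈ Fintype.piFinset (fun _ : Fin k => Icc 1 Q) := hS ▸ h1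
    exact (mem_Icc.1 (Fintype.mem_piFinset.1 h2 i)).1
  obtain ⟨e⟩ : Nonempty (Fin (S.card * J) ≃ {a // a ∈ S} × Fin J) :=
    ⟨(Fintype.equivFinOfCardEq (by rw [Fintype.card_prod, Fintype.card_coe, Fintype.card_fin])).symm⟩
  obtain ⟨E, hE1, hE2⟩ := h0 N (by omega) M (fun i n => (b₀ i + θ i * f (F i) (u i) n)) (fun i => ⟨m i, 𝒟 i, θ i, b₀ i, dat_of (hfam i), fun _ => rfl⟩) (S.card * J) (by
      rw [hSc, pow_add, pow_mul]
      push_cast
      exact mul_le_mul (pow_le_pow_left₀ (Nat.cast_nonneg _) hQ1 _) hJ (Nat.cast_nonneg _) (by positivity))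
    (fun l => (e l).1.1 i₀) (fun l => hSm (e l).1 i₀)
    (fun l s t => ((w (e l).2 t * ∏ i ∈ univ.erase i₀, lam ((e l).1.1 i * t + s i) : ℝ) : ℂ)) (fun l s t => by
      rw [Complex.norm_real, Real.norm_eq_abs, abs_mul, abs_prod]
      exact mul_le_one₀ (hw _ _) (prod_nonneg fun _ _ => abs_nonneg _)
        (Finset.prod_le_one (fun _ _ => abs_nonneg _) (fun i _ => lam_abs _)))
    (fun l s s' t hs => by
      congr 2
      apply prod_congr rfl
      intro i hi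
      rw [hs i (mem_erase.1 hi).1])
  refine ⟨E, hE1, fun n hn hnE s hs a ha j x hx => ?_⟩
  have haS : a ∈ S := by
    rw [hS, Fintype.mem_piFinset]
    intro i
    rw [mem_Icc]
    refine ⟨(ha i).1, ?_⟩
    rw [hQ]
    exact Nat.le_floor (ha i).2
  have h1 := hE2 n hn hnE s (fun i => hs i) (e.symm (⟨a, haS⟩, j)) x (by simpa using hx i₀)
  rw [← Real.norm_eq_abs, ← Complex.norm_real]
  refine le_trans (le_of_eq ?_) h1
  congr 1
  push_cast
  apply sum_congr rfl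
  intro t _
  rw [lam_eq, Equiv.apply_symm_apply, mul_assoc, ← prod_erase_mul univ (fun i => ((lam (a i * t + s i) : ℝ) : ℂ)) (mem_univ i₀)]

end Pool.Agent.Results.MP_4a7640_nt.PowerForms
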